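import Pool.Agent.Helper74.FP.Goals

/-!
# Packet FP-F4
-/

set_option autoImplicit false

namespace Pool.Agent.Helper76.FP

open Pool.Agent.Helper52.Wq2 Pool.Agent.Helper61.NW Pool.Agent.Helper74.FP Monoid Monoid.CoprodI

universe u

open Classical in
/-- The first letter, if its index is `i`, and `1` otherwise. -/
noncomputable def hd {ι : Type} {A : ι → Type u} [∀ i, Group (A i)] (i : ι) (x : CoprodI A) :
    A i := (Word.equivPair i (Word.equiv x)).head

open Classical in
/-- The rest. -/
noncomputable def tw {ι : Type} {A : ι → Type u} [∀ i, Group (A i)] (i : ι) (x : CoprodI A) :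
    Word A := (Word.equivPair i (Word.equiv x)).tail

variable {ι : Type} {A B : ι → Type u} [∀ i, Group (A i)] [∀ i, Group (B i)]

/-- The rest. -/
noncomputable def tl (i : ι) (x : CoprodI A) : CoprodI A := (tw i x).prod

open Classical in
theorem equiv_prod (w : Word A) : Word.equiv w.prod = w := Word.equiv.apply_symm_apply w

open Classical in
theorem H1 (i : ι) (x : CoprodI A) : of (hd i x) * tl i x = x := by
  unfold hd tl tw
  rw [← Word.prod_rcons]
  have h := (Word.equivPair i).symm_apply_apply (Word.equiv x)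
  rw [Word.equivPair_symm] at h
  rw [h]
  exact Word.equiv.symm_apply_apply x

open Classical in
theorem hd_mul (i : ι) (a : A i) (x : CoprodI A) : hd i (of a * x) = a * hd i x := by
  unfold hd
  have h : Word.equiv (of a * x) = of a • Word.equiv x :=
    mul_smul (of a) x (Word.empty : Word A)
  rw [h, Word.equivPair_smul_same]

open Classical in
theorem tl_mul (i : ι) (a : A i) (x : CoprodI A) : tl i (of a * x) = tl i x := by
  unfold tl tw
  have h : Word.equiv (of a * x) = of a • Word.equiv x :=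
    mul_smul (of a) x (Word.empty : Word A)
  rw [h, Word.equivPair_smul_same]

open Classical in
theorem hd_of_ne {i : ι} {w : Word A} (h : w.fstIdx ≠ some i) : hd i w.prod = 1 := by
  unfold hd
  rw [equiv_prod, Word.equivPair_eq_of_fstIdx_ne h]

open Classical in
theorem tl_of_ne {i : ι} {w : Word A} (h : w.fstIdx ≠ some i) : tl i w.prod = w.prod := by
  unfold tl tw
  rw [equiv_prod, Word.equivPair_eq_of_fstIdx_ne h]

open Classical in
theorem H3 {i j : ι} (x : CoprodI A) (h : hd i x ≠ 1) (hij : i ≠ j) : hd j x = 1 := by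
  have hx : x = (Word.equiv x).prod := (Word.equiv.symm_apply_apply x).symm
  have h1 : (Word.equiv x).fstIdx = some i := by
    by_contra h2
    exact h (by rw [hx]; exact hd_of_ne h2)
  rw [hx]
  refine hd_of_ne ?_
  rw [h1]
  exact fun h2 => hij (Option.some.inj h2)

open Classical in
theorem tw_ne (i : ι) (x : CoprodI A) : (tw i x).fstIdx ≠ some i :=
  (Word.equivPair i (Word.equiv x)).fstIdx_ne

/-- The map on words. -/
def mp (r : ∀ i, A i → B i) (hr : ∀ i a, a ≠ 1 → r i a ≠ 1) (w : Word A) : Word B where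
  toList := w.toList.map (fun l => ⟨l.1, r l.1 l.2⟩)
  ne_one := by
    intro l hl
    obtain ⟨l', hl', rfl⟩ := List.mem_map.1 hl
    exact hr _ _ (w.ne_one l' hl')
  chain_ne := by
    rw [List.isChain_map]
    exact w.chain_ne

theorem mp_fst (r : ∀ i, A i → B i) (hr : ∀ i a, a ≠ 1 → r i a ≠ 1) (w : Word A) :
    (mp r hr w).fstIdx = w.fstIdx := by
  unfold mp Word.fstIdx
  simp only [List.head?_map, Option.map_map]
  rfl

theorem mp_inj (r : ∀ i, A i → B i) (hr : ∀ i a, a ≠ 1 → r i a ≠ 1)
    (hinj : ∀ i, Function.Injective (r i)) {w w' : Word A} (h : mp r hr w = mp r hr w') :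
    w = w' := by
  have h1 := congrArg Word.toList h
  refine Word.ext ?_
  refine List.map_injective_iff.2 ?_ h1
  rintro ⟨i, a⟩ ⟨j, b⟩ hab
  simp only [Sigma.mk.injEq] at hab
  obtain ⟨rfl, h2⟩ := hab
  rw [hinj i (eq_of_heq h2)]

/-- The map on the free product. -/
noncomputable def G (r : ∀ i, A i → B i) (hr : ∀ i a, a ≠ 1 → r i a ≠ 1) (x : CoprodI A) :
    CoprodI B := by
  classical
  exact (mp r hr (Word.equiv x)).prod

section

variable (r : ∀ i, A i → B i) (hr : ∀ i a, a ≠ 1 → r i a ≠ 1) (r1 : ∀ i, r i 1 = 1)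

theorem equiv_tl (i : ι) (x : CoprodI A) : G r hr (tl i x) = (mp r hr (tw i x)).prod := by
  classical
  unfold G tl
  have h := equiv_prod (tw i x)
  unfold tw at h ⊢
  rw [h]

include r1 in
theorem G_dec (i : ι) (x : CoprodI A) : G r hr x = of (r i (hd i x)) * G r hr (tl i x) := by
  classical
  rw [equiv_tl]
  by_cases h1 : hd i x = 1
  · have h2 : x = tl i x := by
      have := H1 i x
      rw [h1, map_one, one_mul] at this
      exact this.symm
    rw [h1, r1, map_one, one_mul, ← equiv_tl, ← h2]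
  · have hw : Word.equiv x = Word.cons (hd i x) (tw i x) (tw_ne i x) h1 := by
      have h := (Word.equivPair i).symm_apply_apply (Word.equiv x)
      rw [Word.equivPair_symm] at h
      rw [← h]
      unfold Word.rcons
      rw [dif_neg (show ¬ (Word.equivPair i (Word.equiv x)).head = 1 from h1)]
      rfl
    have h3 : (mp r hr (Word.equiv x)).prod =
        of (r i (hd i x)) * (mp r hr (tw i x)).prod := by
      rw [hw]
      rfl
    unfold G
    exact h3

theorem hd_G (i : ι) (x : CoprodI A) : hd i (G r hr (tl i x)) = 1 := by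
  rw [equiv_tl]
  exact hd_of_ne (by rw [mp_fst]; exact tw_ne i x)

theorem tl_G (i : ι) (x : CoprodI A) : tl i (G r hr (tl i x)) = G r hr (tl i x) := by
  rw [equiv_tl]
  exact tl_of_ne (by rw [mp_fst]; exact tw_ne i x)

theorem G_inj (hinj : ∀ i, Function.Injective (r i)) : Function.Injective (G r hr) := by
  classical
  intro x y hxy
  unfold G at hxy
  have h1 := Word.equiv.symm.injective hxy
  exact Word.equiv.injective (mp_inj r hr hinj h1)

/-- The branch sets. -/
def phi (V : ∀ i, A i → Set (B i)) (x : CoprodI A) : Set (CoprodI B) :=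
  {y | y = G r hr x ∨ ∃ i, ∃ b ∈ V i (hd i x), y = of b * G r hr (tl i x)}

end

theorem cayL_right {Γ : Type u} [Group Γ] {S : Set Γ} {a b : Γ} (c : Γ)
    (h : (cayL S).Adj a b) : (cayL S).Adj (a * c) (b * c) := by
  unfold cayL at *
  rw [SimpleGraph.fromRel_adj] at *
  have e : ∀ a b : Γ, b * c * (a * c)⁻¹ = b * a⁻¹ := by intro a b; group
  rw [e, e]
  exact ⟨fun h1 => h.1 (mul_right_cancel h1), h.2⟩

theorem cayL_of {T : ∀ i, Set (B i)} {i : ι} {b b' : B i} (h : (cayL (T i)).Adj b b') :
    (cayL (US T)).Adj (of b) (of b') := by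
  unfold cayL at *
  rw [SimpleGraph.fromRel_adj] at *
  refine ⟨fun h1 => h.1 (of_injective i h1), ?_⟩
  rcases h.2 with h2 | h2
  · exact Or.inl ⟨i, _, h2, by rw [map_mul, map_inv]⟩
  · exact Or.inr ⟨i, _, h2, by rw [map_mul, map_inv]⟩

theorem cayL_of_mul {T : ∀ i, Set (B i)} {i : ι} {b b' : B i} (h : (cayL (T i)).Adj b b')
    (z : CoprodI B) : (cayL (US T)).Adj (of b * z) (of b' * z) :=
  cayL_right z (cayL_of h)

end Pool.Agent.Helper76.FP

namespace Pool.Agent.Helper76.FP

open Pool.Agent.Helper52.Wq2 Pool.Agent.Helper61.NW Pool.Agent.Helper74.FP Monoid Monoid.CoprodI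

universe u

/-- **Packet FP-F4**. -/
theorem f4 : F4Stmt.{u} := by
  classical
  intro ι A B _ _ S T V hS hT hV h1V
  have hex : ∀ i (a : A i), ∃ b, b ∈ V i a ∧ (a = 1 → b = 1) := by
    intro i a
    by_cases ha : a = 1
    · exact ⟨1, by rw [ha]; exact h1V i, fun _ => rfl⟩
    · obtain ⟨b, hb⟩ := ((hV i).1 a).1
      exact ⟨b, hb, fun h => absurd h ha⟩
  choose r hrV hr1 using hex
  have r1 : ∀ i, r i 1 = 1 := fun i => hr1 i 1 rfl
  have hdis : ∀ i (a a' : A i) (b : B i), b ∈ V i a → b ∈ V i a' → a = a' :=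
    fun i => (hV i).2.1
  have hr : ∀ i a, a ≠ 1 → r i a ≠ 1 := by
    intro i a ha h
    refine ha (hdis i a 1 1 ?_ (h1V i))
    rw [← h]; exact hrV i a
  have hinj : ∀ i, Function.Injective (r i) := by
    intro i a a' h
    refine hdis i a a' (r i a) (hrV i a) ?_
    rw [h]; exact hrV i a'
  have hGi := G_inj r hr hinj
  have hGm : ∀ i (x : CoprodI A), G r hr x = of (r i (hd i x)) * G r hr (tl i x) :=
    G_dec r hr r1
  have same : ∀ (i : ι) (x x' : CoprodI A) (b b' : B i), b ∈ V i (hd i x) → b' ∈ V i (hd i x') →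
      of b * G r hr (tl i x) = of b' * G r hr (tl i x') → x = x' := by
    intro i x x' b b' hb hb' h
    have h2 := congrArg (hd i) h
    rw [hd_mul, hd_mul, hd_G, hd_G, mul_one, mul_one] at h2
    have h3 := congrArg (tl i) h
    rw [tl_mul, tl_mul, tl_G, tl_G] at h3
    have h4 := hGi h3
    subst h2
    have h5 := hdis i _ _ b hb hb'
    rw [← H1 i x, ← H1 i x', h5, h4]
  have key : ∀ (i j : ι) (x x' : CoprodI A) (b : B i) (b' : B j), b ∈ V i (hd i x) →
      b' ∈ V j (hd j x') → of b * G r hr (tl i x) = of b' * G r hr (tl j x') → b = 1 →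
      x = x' := by
    intro i j x x' b b' hb hb' h hb1
    subst hb1
    have h2 := hdis i _ _ 1 hb (h1V i)
    have h3 : tl i x = x := by
      have := H1 i x
      rwa [h2, map_one, one_mul] at this
    rw [map_one, one_mul, h3, hGm j x] at h
    exact same j x x' _ b' (hrV j _) hb' h
  have dis : ∀ (i j : ι) (x x' : CoprodI A) (b : B i) (b' : B j), b ∈ V i (hd i x) →
      b' ∈ V j (hd j x') → of b * G r hr (tl i x) = of b' * G r hr (tl j x') → x = x' := by
    intro i j x x' b b' hb hb' h
    by_cases hij : i = j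
    · subst hij
      exact same i x x' b b' hb hb' h
    · by_cases hb1 : b = 1
      · exact key i j x x' b b' hb hb' h hb1
      · have h2 : hd i (of b * G r hr (tl i x)) = b := by rw [hd_mul, hd_G, mul_one]
        have h3 := H3 (i := i) (j := j) (of b * G r hr (tl i x)) (by rw [h2]; exact hb1) hij
        rw [h, hd_mul, hd_G, mul_one] at h3
        exact (key j i x' x b' b hb' hb h.symm h3).symm
  have part : ∀ (i : ι) (x : CoprodI A),
      Conn (cayL (US T)) ((fun b : B i => of b * G r hr (tl i x)) '' V i (hd i x)) := by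
    intro i x
    refine ((hV i).1 (hd i x)).image _ ?_
    intro a _ b _ hab
    exact Or.inr (cayL_of_mul hab _)
  refine ⟨phi r hr V, ?_, ?_, ?_⟩
  · intro x
    refine ⟨⟨_, Or.inl rfl⟩, ?_⟩
    intro A' hA' hne hcl
    have hp : ∀ i, ∀ y, y ∈ (fun b : B i => of b * G r hr (tl i x)) '' V i (hd i x) → y ∈ A' →
        (fun b : B i => of b * G r hr (tl i x)) '' V i (hd i x) ⊆ A' := by
      intro i y hy hyA z hz
      have := (part i x).2 {u | u ∈ (fun b : B i => of b * G r hr (tl i x)) '' V i (hd i x) ∧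
        u ∈ A'} (fun u hu => hu.1) ⟨y, hy, hyA⟩ (by
          rintro u ⟨hu1, hu2⟩ v hv huv
          refine ⟨hv, hcl u hu2 v ?_ huv⟩
          obtain ⟨b, hb, rfl⟩ := hv
          exact Or.inr ⟨i, b, hb, rfl⟩)
      exact (this hz).2
    have hGp : ∀ i, G r hr x ∈ (fun b : B i => of b * G r hr (tl i x)) '' V i (hd i x) :=
      fun i => ⟨r i (hd i x), hrV i _, (hGm i x).symm⟩
    have hG : G r hr x ∈ A' := by
      obtain ⟨y, hy⟩ := hne
      rcases hA' hy with h | ⟨i, b, hb, h⟩
      · rw [← h]; exact hy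
      · exact hp i y ⟨b, hb, h.symm⟩ hy (hGp i)
    rintro y (rfl | ⟨i, b, hb, rfl⟩)
    · exact hG
    · exact hp i _ (hGp i) hG ⟨b, hb, rfl⟩
  · rintro x x' y (h | ⟨i, b, hb, h⟩) (h' | ⟨j, b', hb', h'⟩)
    · exact hGi (h.symm.trans h')
    · refine dis j j x x' (r j (hd j x)) b' (hrV j _) hb' ?_
      rw [← hGm j x, ← h, ← h']
    · refine dis i i x x' b (r i (hd i x')) hb (hrV i _) ?_
      rw [← hGm i x', ← h, ← h']
    · exact dis i j x x' b b' hb hb' (h.symm.trans h')
  · have ed : ∀ (x x' : CoprodI A), x ≠ x' → x' * x⁻¹ ∈ US S →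
        ∃ a ∈ phi r hr V x, ∃ b ∈ phi r hr V x', (cayL (US T)).Adj a b := by
      intro x x' hne h
      obtain ⟨i, s, hs, hsx⟩ := h
      have hx' : x' = of s * x := by rw [← hsx, inv_mul_cancel_right]
      have h2 : (cayL (S i)).Adj (hd i x) (hd i x') := by
        unfold cayL
        rw [SimpleGraph.fromRel_adj, hx', hd_mul]
        refine ⟨fun h3 => ?_, Or.inl (by rwa [mul_inv_cancel_right])⟩
        have h4 : s = 1 := by
          have h5 : 1 * hd i x = s * hd i x := by rw [one_mul]; exact h3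
          exact (mul_right_cancel h5).symm
        rw [h4, map_one, one_mul] at hx'
        exact hne hx'.symm
      obtain ⟨b, hb, b', hb', hbb⟩ := (hV i).2.2 _ _ h2
      refine ⟨_, Or.inr ⟨i, b, hb, rfl⟩, _, Or.inr ⟨i, b', hb', rfl⟩, ?_⟩
      have h3 : tl i x' = tl i x := by rw [hx', tl_mul]
      rw [h3]
      exact cayL_of_mul hbb _
    intro x x' h
    unfold cayL at h
    rw [SimpleGraph.fromRel_adj] at h
    rcases h.2 with h2 | h2
    · exact ed x x' h.1 h2
    · obtain ⟨a, ha, b, hb, hab⟩ := ed x' x h.1.symm h2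
      exact ⟨b, hb, a, ha, hab.symm⟩

end Pool.Agent.Helper76.FP
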